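import Pool.Agent.Lib.MP_1a4aff_gt.I3.Transfer

/-! Closed three-manifolds with a given spectrum fall into finitely many diffeomorphism types. -/

set_option autoImplicit false

open MeasureTheory Set Filter Topology Metric
open scoped ContDiff Manifold

namespace Pool.Agent.Lib.MP_1a4aff_gt.I3.FT

open P7c

theorem ext_two {n n' : ℕ} (hL : LocStmt) (hE : ExtStmt) (D : Data n) {m : ℕ} {r : ℝ}
    (e₁ : Fin m → E3 → Amb n) (e₂ : Fin m → E3 → Amb n')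
    (h₁ : ∀ β, ContDiffOn ℝ ∞ (e₁ β) (ball 0 r))
    (h₂ : ∀ β, ContDiffOn ℝ ∞ (e₂ β) (ball 0 r)) (m₁ : ∀ β, MapsTo (e₁ β) (ball 0 r) D.S)
    (i₁ : ∀ β, ∀ y ∈ ball (0 : E3) r, Function.Injective (fderiv ℝ (e₁ β) y))
    (c₁ : ∀ p ∈ D.S, ∃ β, ∃ y ∈ ball (0 : E3) r, e₁ β y = p) (f : Amb n → Amb n')
    (hf : ∀ β, ∀ y ∈ ball (0 : E3) r, f (e₁ β y) = e₂ β y) :
    ∃ φ, ContDiff ℝ ∞ φ ∧ EqOn φ f D.S := by
  refine hE n _ D.S D.cpt.isClosed f fun p hp => ?_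
  obtain ⟨β, y, hy, rfl⟩ := c₁ p hp
  obtain ⟨W, U, a, -, hyW, hW, hU, ha, h1, h2⟩ :=
    hL n D (e₁ β) _ isOpen_ball (h₁ β) (m₁ β) y hy (i₁ β y hy)
  refine ⟨U ∩ a ⁻¹' ball 0 r, ha.continuousOn.isOpen_inter_preimage hU isOpen_ball,
    ⟨(h1 y hyW).1, by rw [mem_preimage, (h1 y hyW).2]; exact hy⟩, e₂ β ∘ a,
    (h₂ β).comp (ha.mono inter_subset_left) fun q hq => hq.2, fun q hq => ?_⟩
  obtain ⟨h3, h4⟩ := h2 q ⟨hq.1, hq.2.1⟩
  rw [Function.comp_apply, ← hf β _ (hW h3), h4]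

/-- Cheeger-Gromov for a family of embedded manifolds: along an ultrafilter they are
diffeomorphic to one of them -/
theorem p7_two (hA : P7aStmt) (hT : RetrStmt) (hU : ULimStmt) (hL : LocStmt) (hE : ExtStmt)
    (hR : RadStmt) (ι : Type) (𝒰 : Ultrafilter ι) (n : ι → ℕ) (G : ∀ i, Geo (n i)) (ρ : ℝ) (m : ℕ)
    (hρ0 : 0 < ρ) (hρ1 : ρ ≤ 1 / 4) (hB0 : ∀ i, (G i).Bd 0 1)
    (hBJ : ∀ J, ∃ B, ∀ i, (G i).Bd J B) (hI : ∀ i, (G i).Inj ρ)
    (hcov : ∀ i, ∃ u : Fin m → Fr (n i), (∀ β, u β ∈ (G i).F) ∧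
      (G i).S ⊆ ⋃ β, (G i).ex (u β) '' ball 0 (ρ / 100)) :
    ∃ A ∈ 𝒰, ∃ i₀, ∀ i ∈ A, ∃ (φ : Amb (n i₀) → Amb (n i)) (φ' : Amb (n i) → Amb (n i₀)),
      ContDiff ℝ ∞ φ ∧ ContDiff ℝ ∞ φ' ∧ MapsTo φ (G i₀).S (G i).S ∧ MapsTo φ' (G i).S (G i₀).S ∧
        (∀ p ∈ (G i₀).S, φ' (φ p) = p) ∧ ∀ p ∈ (G i).S, φ (φ' p) = p := by
  choose u hu hcov using hcov
  let χ : ContDiffBump (0 : E3) := ⟨ρ / 2, 3 * ρ / 4, by positivity, by linarith⟩
  have hχs : tsupport χ ⊆ ball 0 ρ := by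
    rw [χ.tsupport_eq]; exact closedBall_subset_ball (show 3 * ρ / 4 < ρ by linarith)
  have hχ1 : ∀ y : E3, ‖y‖ ≤ ρ / 2 → χ y = 1 := fun y hy =>
    χ.one_of_mem_closedBall (mem_closedBall_zero_iff.2 hy)
  obtain ⟨a1, a2⟩ := hA ρ χ hρ0 hρ1 χ.contDiff hχs
  set Φ : ∀ i, Amb (n i) → Fin m → E3 × ℝ := fun i p γ => (G i).cut χ (u i γ) p with hΦ
  set e : ∀ i, Fin m → E3 → Amb (n i) := fun i β => (G i).ex (u i β) with he
  have hq : ball (0 : E3) ρ ⊆ ball 0 (1 / 4) := ball_subset_ball hρ1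
  have hsm : ∀ i β, ContDiffOn ℝ ∞ (fun y => Φ i (e i β y)) (ball 0 ρ) := fun i β =>
    contDiffOn_pi.2 fun γ => ((a1 _ _ (hB0 i) (hI i) _ (hu i γ)).2.2 _ (hu i β)).mono hq
  have hub : ∀ k, UBk k (fun (z : ι × Fin m × ball (0 : E3) ρ) y => Φ z.1 (e z.1 z.2.1 y))
      fun z => (z.2.2 : E3) := fun k => ub_pi fun γ => by
    choose J hJ using a2
    choose B hB using hBJ
    choose C hC using fun l => hJ l (B (J l))
    refine ⟨fun z => ((a1 _ _ (hB0 _) (hI _) _ (hu _ γ)).2.2 _ (hu _ _)).contDiffAt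
      (isOpen_ball.mem_nhds (hq z.2.2.2)), ∑ b ∈ Finset.range (k + 1), |C b|, fun z b hb => ?_⟩
    exact ((hC b _ _ (hB0 _) (hB _ _) (hI _) _ (hu _ γ) _ (hu _ _) _ (hq z.2.2.2)).trans
      (le_abs_self _)).trans (Finset.single_le_sum (f := fun b => |C b|)
        (fun _ _ => abs_nonneg _) (Finset.mem_range.2 (by omega)))
  choose C hC using fun k => (hub k).2
  have hC' : ∀ i β k, ∀ y ∈ ball (0 : E3) ρ,
      ‖iteratedFDeriv ℝ k (fun y => Φ i (e i β y)) y‖ ≤ C k :=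
    fun i β k y hy => hC k (i, β, ⟨y, hy⟩) k le_rfl
  obtain ⟨δ, hδ, C', hret⟩ := hT m ρ C hρ0 (by linarith)
  choose g hg using fun β => hU ι E3 _ 𝒰 (fun i y => Φ i (e i β y)) (ball 0 ρ) C isOpen_ball
    (Eventually.of_forall fun i => ⟨hsm i β, hC' i β⟩)
  set A : Set ι := {i | ∀ β, ∀ k : Fin 2, ∀ y ∈ closedBall (0 : E3) (ρ / 2),
    dist (iteratedFDeriv ℝ k (g β) y) (iteratedFDeriv ℝ k (fun y => Φ i (e i β y)) y) < δ / 2}
    with hAdef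
  have hA𝒰 : A ∈ 𝒰 := by
    refine eventually_all.2 fun β => eventually_all.2 fun k => ?_
    exact Metric.tendstoUniformlyOn_iff.1 ((hg β).2 k _
      (closedBall_subset_ball (by linarith)) (isCompact_closedBall _ _)) _ (by positivity)
  obtain ⟨i₀, hi₀⟩ := 𝒰.nonempty_of_mem hA𝒰
  have eS : ∀ i β y, e i β y ∈ (G i).S := fun i β y => (G i).ex_mem (hu i β) y
  have c1 : ∀ i β y, ‖y‖ ≤ ρ / 2 → Φ i (e i β y) β = (y, 1) := fun i β y hy => by
    have := (a1 _ _ (hB0 i) (hI i) _ (hu i β)).1 y (mem_ball_zero_iff.2 (by linarith))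
    rw [hχ1 y hy, one_smul] at this
    exact this
  have c2 : ∀ i β p, 1 / 2 < (Φ i p β).2 → ‖(Φ i p β).1‖ < ρ / 8 → p = e i β (Φ i p β).1 := by
    intro i β p h2 h3
    by_cases hp : p ∈ e i β '' ball 0 ρ
    · obtain ⟨y, hy, rfl⟩ := hp
      have e1 : Φ i (e i β y) β = (χ y • y, χ y) := (a1 _ _ (hB0 i) (hI i) _ (hu i β)).1 y hy
      rw [e1] at h2 h3
      simp only [norm_smul, Real.norm_of_nonneg χ.nonneg] at h2 h3
      rw [c1 i β y (by nlinarith [norm_nonneg y])]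
    · have e1 : Φ i p β = 0 := (a1 _ _ (hB0 i) (hI i) _ (hu i β)).2.1 p hp
      rw [e1] at h2
      norm_num at h2
  have hc : ∀ i, ∀ p ∈ (G i).S, ∃ β, ∃ y ∈ ball (0 : E3) (ρ / 100), e i β y = p := fun i p hp => by
    simpa using hcov i hp
  have c3 : ∀ i β, ∀ y ∈ ball (0 : E3) (ρ / 100), ∀ q, ‖Φ i q - Φ i (e i β y)‖ ≤ ρ / 500 →
      ∃ y' ∈ ball (0 : E3) (ρ / 32), e i β y' = q := fun i β y hy q hd => by
    rw [mem_ball_zero_iff] at hy
    have d1 := (norm_le_pi_norm _ β).trans hd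
    rw [Pi.sub_apply, c1 i β y (by linarith)] at d1
    have d2 := (norm_fst_le _).trans d1
    have d3 := (norm_snd_le _).trans d1
    simp only [Prod.fst_sub, Prod.snd_sub, Real.norm_eq_abs] at d2 d3
    have d4 : ‖(Φ i q β).1‖ < ρ / 32 := by linarith [norm_sub_norm_le (Φ i q β).1 y]
    exact ⟨_, mem_ball_zero_iff.2 d4,
      (c2 i β q (by linarith [(abs_le.1 d3).1]) (by linarith)).symm⟩
  have hinj : ∀ i, InjOn (Φ i) (G i).S := fun i p hp q hq h => by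
    obtain ⟨β, y, hy, rfl⟩ := hc i p hp
    rw [mem_ball_zero_iff] at hy
    have d1 := c1 i β y (by linarith)
    have d2 := c2 i β q (by rw [← h, d1]; norm_num) (by rw [← h, d1]; linarith)
    rw [d2, ← h, d1]
  refine ⟨A, hA𝒰, i₀, fun i hi => ?_⟩
  · obtain ⟨π, hπ⟩ := hret (fun β y => Φ i (e i β y)) (fun β y => Φ i₀ (e i₀ β y)) (Φ i '' (G i).S)
      (fun β => ⟨hsm i β, hsm i₀ β, fun k y hy => ⟨hC' i β k y hy, hC' i₀ β k y hy⟩⟩)
      (fun β y _ => mem_image_of_mem _ (eS i β y))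
      (by
        rintro _ ⟨p, -, rfl⟩ β h2 h3
        exact congrArg (Φ i) (c2 i β p h2 h3))
      (fun β y hy => ⟨c1 i β y hy, c1 i₀ β y hy⟩)
      (fun β y hy => by
        have hy' := mem_closedBall_zero_iff.2 hy
        refine ⟨(norm_sub_le0 (fun y => Φ i (e i β y)) (fun y => Φ i₀ (e i₀ β y)) y).trans ?_,
          (norm_sub_le1 _ _ y).trans ?_⟩
        · exact (dist_triangle_left _ _ _).trans
            ((add_le_add (hi β 0 y hy').le (hi₀ β 0 y hy').le).trans (by linarith))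
        · exact (dist_triangle_left _ _ _).trans
            ((add_le_add (hi β 1 y hy').le (hi₀ β 1 y hy').le).trans (by linarith)))
    set k : Fin m → E3 → E3 := fun β y => (π (Φ i₀ (e i₀ β y)) β).1 with hk
    have k1 : ∀ β, ∀ y ∈ ball (0 : E3) (ρ / 32), ‖k β y - y‖ ≤ ρ / 1000 := fun β y hy => by
      have d1 := (norm_le_pi_norm _ β).trans ((hπ β).2 y hy).2.1
      rw [Pi.sub_apply, c1 i₀ β y (by linarith [mem_ball_zero_iff.1 hy])] at d1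
      exact (norm_fst_le _).trans d1
    have k2 : ∀ β, ∀ y ∈ ball (0 : E3) (ρ / 32), ‖k β y‖ < 1 / 4 := fun β y hy => by
      linarith [k1 β y hy, norm_sub_norm_le (k β y) y, mem_ball_zero_iff.1 hy]
    have : Nonempty (Amb (n i)) := ⟨0⟩
    have : Nonempty (Amb (n i₀)) := ⟨0⟩
    set f : Amb (n i₀) → Amb (n i) := fun p => Function.invFunOn (Φ i) (G i).S (π (Φ i₀ p)) with hf
    have f1 : ∀ β, ∀ y ∈ ball (0 : E3) (ρ / 32), f (e i₀ β y) = (e i β ∘ k β) y := fun β y hy => by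
      simp only [hf]
      rw [((hπ β).2 y hy).1]
      exact (hinj i).leftInvOn_invFunOn (eS _ _ _)
    have s1 : ball (0 : E3) (ρ / 100) ⊆ ball 0 (ρ / 32) := ball_subset_ball (by linarith)
    have hc' : ∀ p ∈ (G i₀).S, ∃ β, ∃ y ∈ ball (0 : E3) (ρ / 32), e i₀ β y = p := fun p hp =>
      let ⟨β, y, hy, h⟩ := hc i₀ p hp; ⟨β, y, s1 hy, h⟩
    have f2 : ∀ p ∈ (G i₀).S,
        Φ i (f p) = π (Φ i₀ p) ∧ ‖π (Φ i₀ p) - Φ i₀ p‖ ≤ ρ / 1000 ∧ f p ∈ (G i).S :=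
      fun p hp => by
        obtain ⟨β, y, hy, rfl⟩ := hc' p hp
        rw [f1 β y hy]
        exact ⟨((hπ β).2 y hy).1.symm, ((hπ β).2 y hy).2.1, eS _ _ _⟩
    have kd : ∀ β, ∀ y ∈ ball (0 : E3) (ρ / 32),
        ‖fderiv ℝ (k β) y - ContinuousLinearMap.id ℝ E3‖ ≤ 1 / 2 :=
      fun β y hy => ((hπ β).2 y hy).2.2.1
    have finj : InjOn f (G i₀).S := fun p hp q hq h => by
      obtain ⟨β, y, hy, rfl⟩ := hc i₀ p hp
      have d0 : π (Φ i₀ (e i₀ β y)) = π (Φ i₀ q) := by rw [← (f2 _ hp).1, h, (f2 _ hq).1]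
      obtain ⟨y', hy', rfl⟩ := c3 i₀ β y hy q (by
        have d1 := (f2 _ hp).2.1
        have d2 := (f2 _ hq).2.1
        rw [d0] at d1
        have := norm_sub_le_norm_sub_add_norm_sub (Φ i₀ q) (π (Φ i₀ q)) (Φ i₀ (e i₀ β y))
        rw [norm_sub_rev (Φ i₀ q) (π _)] at this
        linarith)
      rw [k_inj (hπ β).1 (kd β) (s1 hy) hy' (by simp only [d0])]
    have hc2 : ∀ p ∈ (G i).S, ∃ β, ∃ y ∈ ball (0 : E3) (ρ / 32), (e i β ∘ k β) y = p :=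
      fun p hp => by
      obtain ⟨β, x, hx, rfl⟩ := hc i p hp
      obtain ⟨y, hy, h⟩ := k_surj hρ0 (hπ β).1 (kd β) (k1 β) hx
      exact ⟨β, y, hy, congrArg (e i β) h⟩
    have sm0 : ∀ β, ContDiffOn ℝ ∞ (e i₀ β) (ball 0 (ρ / 32)) := fun β =>
      ((G i₀).contDiff_ex _).contDiffOn
    have sm1 : ∀ β, ContDiffOn ℝ ∞ (e i β ∘ k β) (ball 0 (ρ / 32)) := fun β =>
      ((G i).contDiff_ex _).comp_contDiffOn (hπ β).1
    obtain ⟨φ, hφ, eφ⟩ := ext_two hL hE (G i₀).toData (e i₀) (fun β => e i β ∘ k β) sm0 sm1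
      (fun β y _ => (G i₀).ex_mem (hu _ _) y)
      (fun β y hy => ex_inj hR (hB0 _) (hu _ _) (by linarith [mem_ball_zero_iff.1 hy]))
      hc' f f1
    obtain ⟨φ', hφ', eφ'⟩ := ext_two hL hE (G i).toData (fun β => e i β ∘ k β) (e i₀) sm1 sm0
      (fun β y _ => (G i).ex_mem (hu _ _) _)
      (fun β y hy => by
        rw [fderiv_comp y (((G i).contDiff_ex _).differentiable (by simp) _)
          (((hπ β).1.contDiffAt (isOpen_ball.mem_nhds hy)).differentiableAt (by simp))]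
        exact (ex_inj hR (hB0 _) (hu _ _) (k2 β y hy).le).comp (inj_of_half (kd β y hy)))
      hc2 (Function.invFunOn f (G i₀).S)
      (fun β y hy => by rw [← f1 β y hy]; exact finj.leftInvOn_invFunOn (eS _ _ _))
    have fs : SurjOn f (G i₀).S (G i).S := fun p hp =>
      let ⟨β, y, hy, h⟩ := hc2 p hp; ⟨_, eS _ _ _, (f1 β y hy).trans h⟩
    have m1 : MapsTo φ (G i₀).S (G i).S := fun p hp => by rw [eφ hp]; exact (f2 p hp).2.2
    have m2 : MapsTo φ' (G i).S (G i₀).S := fun p hp => by rw [eφ' hp]; exact fs.mapsTo_invFunOn hp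
    refine ⟨φ, φ', hφ, hφ', m1, m2, fun p hp => ?_, fun p hp => ?_⟩
    · rw [eφ' (m1 hp), eφ hp]; exact finj.leftInvOn_invFunOn hp
    · rw [eφ (m2 hp), eφ' hp]; exact fs.rightInvOn_invFunOn hp

section
variable {E : Type} [NormedAddCommGroup E] [InnerProductSpace ℝ E] [FiniteDimensional ℝ E]
  {M : Type} [TopologicalSpace M] [ChartedSpace E M] [IsManifold 𝓘(ℝ, E) ∞ M] [CompactSpace M]
  [T2Space M] {N : Type} [TopologicalSpace N] [ChartedSpace E N] {n n' : ℕ}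
  {ι : M → Amb n} {κ : N → Amb n'}

/-- a map that is induced by a smooth ambient map is smooth -/
theorem induced_two (hι : Emb E ι) (hκ : Emb E κ) {φ : Amb n' → Amb n} (hφ : ContDiff ℝ ∞ φ)
    {ψ : N → M} (e : ∀ x, ι (ψ x) = φ (κ x)) : ContMDiff 𝓘(ℝ, E) 𝓘(ℝ, E) ∞ ψ := by
  intro x
  obtain ⟨U, r, hU, hx, hr, h⟩ :=
    (embLoc_holds E M n ι hι (ψ x)).2.2 (ψ x) (mem_chart_source E _)
  have s1 : ContMDiff 𝓘(ℝ, E) 𝓘(ℝ, Amb n) ∞ (φ ∘ κ) := hφ.contMDiff.comp hκ.sm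
  have s2 : ContMDiffAt 𝓘(ℝ, E) 𝓘(ℝ, E) ∞ (chartAt E (ψ x)).symm ((r ∘ (φ ∘ κ)) x) := by
    simp only [Function.comp_apply]
    rw [← e, (h _ hx).2]
    exact contMDiffOn_chart_symm.contMDiffAt
      ((chartAt E (ψ x)).open_target.mem_nhds (mem_chart_target E _))
  refine (s2.comp x (hr.contMDiff.comp s1 x)).congr_of_eventuallyEq ?_
  rw [e] at hx
  filter_upwards [s1.continuous.continuousAt.preimage_mem_nhds (hU.mem_nhds hx)] with y hy
  rw [mem_preimage, Function.comp_apply, ← e] at hy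
  simp only [Function.comp_apply]
  rw [← e, (h _ hy).2, (chartAt E (ψ x)).left_inv (h _ hy).1]

/-- ambient maps that exchange the images give a diffeomorphism -/
theorem diffeo_two [IsManifold 𝓘(ℝ, E) ∞ N] [CompactSpace N] [T2Space N] (hι : Emb E ι)
    (hκ : Emb E κ) {φ : Amb n → Amb n'} {φ' : Amb n' → Amb n} (hφ : ContDiff ℝ ∞ φ)
    (hφ' : ContDiff ℝ ∞ φ') (m : MapsTo φ (range ι) (range κ))
    (m' : MapsTo φ' (range κ) (range ι)) (i : ∀ p ∈ range ι, φ' (φ p) = p)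
    (i' : ∀ p ∈ range κ, φ (φ' p) = p) : Nonempty (Diffeomorph 𝓘(ℝ, E) 𝓘(ℝ, E) N M ∞) := by
  choose ψ hψ using fun x => m (mem_range_self x)
  choose ψ' hψ' using fun x => m' (mem_range_self x)
  have l1 : ∀ x, ψ' (ψ x) = x := fun x => hι.inj (by rw [hψ', hψ, i _ (mem_range_self x)])
  have l2 : ∀ x, ψ (ψ' x) = x := fun x => hκ.inj (by rw [hψ, hψ', i' _ (mem_range_self x)])
  exact ⟨⟨⟨ψ', ψ, l2, l1⟩, induced_two hι hκ hφ' hψ', induced_two hκ hι hφ hψ⟩⟩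

end

section
variable (E : Type) [NormedAddCommGroup E] [InnerProductSpace ℝ E] [FiniteDimensional ℝ E]
  [MeasurableSpace E] [BorelSpace E] (hE : Module.finrank ℝ E = 3) (I : Type) (M : I → Type)
  [∀ i, TopologicalSpace (M i)] [∀ i, ChartedSpace E (M i)] [∀ i, IsManifold 𝓘(ℝ, E) ∞ (M i)]
  [∀ i, CompactSpace (M i)] [∀ i, T2Space (M i)] [∀ i, Nonempty (M i)]
  [∀ i, MeasurableSpace (M i)] [∀ i, BorelSpace (M i)]
include hE

theorem along (lam : ℕ → ℝ) (g : ∀ i, Met E (M i)) (hg : ∀ i k, eigen (g i) k = lam k)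
    (𝒰 : Ultrafilter I) :
    ∃ i₀, {i | Nonempty (Diffeomorph 𝓘(ℝ, E) 𝓘(ℝ, E) (M i) (M i₀) ∞)} ∈ 𝒰 := by
  choose n ι hι using fun i => brA_holds E (M i)
  have hGe : ∀ i, ∃ G : Geo (n i), G.S = range (ι i) ∧ Pull (g i) (ι i) G.g := fun i => by
    obtain ⟨D, h1, h2⟩ := brB_holds embLoc_holds bas_holds E (M i) hE _ _ (hι i) (g i)
    obtain ⟨G, rfl⟩ := geo_all _ D
    exact ⟨G, h1, h2⟩
  choose G hGS hGP using hGe
  have hGe : ∀ i k, (G i).eig k = lam k := fun i k =>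
    (brC_holds mbas_holds embLoc_holds bas_holds E (M i) hE _ _ (hι i) (g i) _ (hGS i) (hGP i)
      k).symm.trans (hg i k)
  obtain ⟨B₀, hB₀⟩ := mainA_all lam 0
  set s : ℝ := max 1 B₀ with hs
  have hs1 : 1 ≤ s := le_max_left _ _
  have hs0 : 0 < s := one_pos.trans_le hs1
  choose G' φ₀ h1 h2 h3 h4 h5 using fun i => scale_holds (n i) (G i) s hs0
  have h3' : ∀ i k, (G' i).eig k = lam k / s ^ 2 := fun i k => by rw [h3, hGe]
  have hbd : ∀ i, (G' i).Bd 0 1 := fun i u hu J hJ a b => by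
    rw [h4] at hu
    obtain ⟨u, hu, rfl⟩ := hu
    rw [h5 i u hu, abs_div, abs_of_pos (pow_pos hs0 _), div_le_one (pow_pos hs0 _)]
    exact (hB₀ _ _ (hGe i) u hu J hJ a b).trans ((le_max_right 1 B₀).trans
      (le_self_pow₀ hs1 (by omega)))
  obtain ⟨ρ, hρ0, hρ1, hρ⟩ := mainB_all fun k => lam k / s ^ 2
  obtain ⟨m, hm⟩ := hρ (ρ / 100) (by positivity)
  obtain ⟨A, hA, i₀, h⟩ := p7_two (p7a_holds str_holds rad_holds loc_holds ub1_all) retr_holds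
    ulim_holds loc_holds ext_holds rad_holds I 𝒰 n G' ρ m hρ0 hρ1 hbd
    (fun J => let ⟨B, hB⟩ := mainA_all (fun k => lam k / s ^ 2) J; ⟨B, fun i => hB _ _ (h3' i)⟩)
    (fun i => (hm _ _ (h3' i) (hbd i)).1) fun i => (hm _ _ (h3' i) (hbd i)).2
  refine ⟨i₀, mem_of_superset hA fun i hi => ?_⟩
  obtain ⟨φ, φ', a1, a2, a3, a4, a5, a6⟩ := h i hi
  simp only [h1, hGS] at a3 a4 a5 a6
  exact diffeo_two (hι i₀) (hι i) a1 a2 a3 a4 a5 a6

theorem finite_old (lam : ℕ → ℝ) (g : ∀ i, Met E (M i)) (hg : ∀ i k, eigen (g i) k = lam k) :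
    ∃ s : Finset I, ∀ i, ∃ j ∈ s, Nonempty (Diffeomorph 𝓘(ℝ, E) 𝓘(ℝ, E) (M i) (M j) ∞) := by
  classical
  by_contra h
  push Not at h
  let F : Filter I := ⨅ s : Finset I,
    𝓟 {i | ∀ j ∈ s, ¬ Nonempty (Diffeomorph 𝓘(ℝ, E) 𝓘(ℝ, E) (M i) (M j) ∞)}
  have : F.NeBot := iInf_neBot_of_directed'
    (fun s t => ⟨s ∪ t, principal_mono.2 fun i hi j hj => hi j (Finset.mem_union_left _ hj),
      principal_mono.2 fun i hi j hj => hi j (Finset.mem_union_right _ hj)⟩)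
    fun s => principal_neBot_iff.2 (by
      obtain ⟨i, hi⟩ := h s
      exact ⟨i, fun j hj => by simpa using hi j hj⟩)
  obtain ⟨i₀, hi₀⟩ := along E hE I M lam g hg (Ultrafilter.of F)
  have h2 : {i | ∀ j ∈ ({i₀} : Finset I),
      ¬ Nonempty (Diffeomorph 𝓘(ℝ, E) 𝓘(ℝ, E) (M i) (M j) ∞)} ∈ Ultrafilter.of F :=
    Ultrafilter.of_le F (mem_iInf_of_mem {i₀} (mem_principal_self _))
  obtain ⟨i, h3, h4⟩ := (Ultrafilter.of F).nonempty_of_mem (inter_mem hi₀ h2)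
  exact h4 i₀ (Finset.mem_singleton_self _) h3

theorem finite_new (lam : ℕ → ℝ) (g : ∀ i, Iso3.Met E (M i))
    (hg : ∀ i k, Iso3.eigen (g i) k = lam k) :
    ∃ s : Finset I, ∀ i, ∃ j ∈ s, Nonempty (Diffeomorph 𝓘(ℝ, E) 𝓘(ℝ, E) (M i) (M j) ∞) := by
  choose g' hg' using fun i => Iso3.exists_old (g i)
  exact finite_old E hE I M lam g' fun i k => by rw [← hg i k, ← hg' i]; rfl

end

/-- a closed manifold with a metric, bundled -/
structure Obj (E : Type) [NormedAddCommGroup E] [InnerProductSpace ℝ E] where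
  M : Type
  [top : TopologicalSpace M]
  [ch : ChartedSpace E M]
  [man : IsManifold 𝓘(ℝ, E) ∞ M]
  [cpt : CompactSpace M]
  [t2 : T2Space M]
  [con : ConnectedSpace M]
  [ms : MeasurableSpace M]
  [bor : BorelSpace M]
  g : Iso3.Met E M

attribute [local instance] Obj.top Obj.ch Obj.man Obj.cpt Obj.t2 Obj.con Obj.ms Obj.bor

theorem bounded (E : Type) [NormedAddCommGroup E] [InnerProductSpace ℝ E] [FiniteDimensional ℝ E]
    [MeasurableSpace E] [BorelSpace E] (hE : Module.finrank ℝ E = 3) (lam : ℕ → ℝ) :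
    ∃ N : ℕ, ∀ X : Fin (N + 1) → Obj E, (∀ i k, Iso3.eigen (X i).g k = lam k) →
      ∃ i j, i ≠ j ∧ Nonempty (Diffeomorph 𝓘(ℝ, E) 𝓘(ℝ, E) (X i).M (X j).M ∞) := by
  by_contra h
  push Not at h
  choose X hX hD using h
  obtain ⟨s, hs⟩ := finite_new E hE (Σ N : ℕ, Fin (N + 1)) (fun z => (X z.1 z.2).M) lam
    (fun z => (X z.1 z.2).g) fun z k => hX z.1 z.2 k
  choose c hc hd using hs
  obtain ⟨i, j, hij, e⟩ := Fintype.exists_ne_map_eq_of_card_lt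
    (fun i : Fin (s.card + 1) => (⟨c ⟨s.card, i⟩, hc _⟩ : s)) (by simp)
  have e' : c ⟨s.card, i⟩ = c ⟨s.card, j⟩ := congrArg Subtype.val e
  obtain ⟨a⟩ := hd ⟨s.card, i⟩
  have b := hd ⟨s.card, j⟩
  rw [← e'] at b
  obtain ⟨b⟩ := b
  simpa using (hD s.card i j hij).false (a.trans b.symm)

end Pool.Agent.Lib.MP_1a4aff_gt.I3.FT
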